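import Pool.Agent.H70.NE.Targets

/-!
# SMB: the second moment for fixed `p`
-/

set_option autoImplicit false

namespace Pool.Agent.H51.NE.SMB

open Finset Filter Pool.Agent.H6.NB Pool.Agent.H70.OQ Pool.Agent.H70.NC Pool.Agent.H70.NE

variable {M : Type} [Fintype M] [DecidableEq M]

omit [DecidableEq M] in
theorem lw_nn {p : ℝ} (h0 : 0 ≤ p) (h1 : p ≤ 1) (β : M → Bool) : 0 ≤ lw p β := by
  unfold lw
  refine prod_nonneg fun a _ => ?_
  split_ifs
  · exact h0
  · linarith

/-- pairing over one coordinate -/
theorem pairing (m : M) (H : (M → Bool) → ℝ) : ∑ β, H β =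
    1 / 2 * ∑ β : M → Bool, (H (Function.update β m true) + H (Function.update β m false)) := by
  have hinv : Function.Involutive (fun β : M → Bool => Function.update β m (!β m)) := by
    intro β
    simp
  have h1 : ∑ β : M → Bool, H (Function.update β m (!β m)) = ∑ β, H β :=
    Equiv.sum_comp (hinv.toPerm) H
  have h2 : ∑ β : M → Bool, (H (Function.update β m true) + H (Function.update β m false)) =
      ∑ β : M → Bool, (H β + H (Function.update β m (!β m))) := by
    refine sum_congr rfl fun β _ => ?_
    cases hb : β m
    · have : Function.update β m false = β := by rw [← hb]; exact Function.update_eq_self m β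
      rw [this, Bool.not_false, add_comm]
    · have : Function.update β m true = β := by rw [← hb]; exact Function.update_eq_self m β
      rw [this, Bool.not_true]
  rw [h2, sum_add_distrib, h1]
  ring

/-- the weight without the coordinate `m` -/
noncomputable def qw (p : ℝ) (m : M) (β : M → Bool) : ℝ := ∏ a ∈ univ.erase m, if β a then p else 1 - p

theorem qw_update (p : ℝ) (m : M) (β : M → Bool) (b : Bool) : qw p m (Function.update β m b) = qw p m β := by
  unfold qw
  refine prod_congr rfl fun a ha => ?_
  rw [Function.update_of_ne (ne_of_mem_erase ha)]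

theorem lw_update (p : ℝ) (m : M) (β : M → Bool) (b : Bool) :
    lw p (Function.update β m b) = (if b = true then p else 1 - p) * qw p m β := by
  have h : lw p (Function.update β m b) =
      (if (Function.update β m b) m then p else 1 - p) * qw p m (Function.update β m b) := by
    unfold lw qw
    rw [mul_prod_erase univ (fun a => if (Function.update β m b) a then p else 1 - p) (mem_univ m)]
  rw [h, qw_update, Function.update_self]

theorem pair_lemma (p : ℝ) (m : M) (G F : (M → Bool) → ℝ)
    (hG : ∀ β b, G (Function.update β m b) = G β) :
    ∑ β, lw p β * (((if β m = true then 1 else 0) - p) * G β * F β) =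
      p * (1 - p) * ∑ β, lw p β * (G β * (F (Function.update β m true) - F (Function.update β m false))) := by
  rw [pairing m (fun β => lw p β * (((if β m = true then 1 else 0) - p) * G β * F β)),
    pairing m (fun β => lw p β * (G β * (F (Function.update β m true) - F (Function.update β m false)))),
    ← mul_assoc, mul_comm (p * (1 - p)) (1 / 2), mul_assoc, mul_sum (s := univ) (a := p * (1 - p))]
  congr 1
  refine sum_congr rfl fun β _ => ?_
  simp only [lw_update, hG, Function.update_self, Function.update_idem]
  simp
  ring

theorem ic_nonneg (q : Prop) : 0 ≤ ic q := by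
  unfold ic
  split_ifs <;> norm_num

theorem abs_sb (a b : Bool) : |sb a - sb b| = (sb a - sb b) + 4 * ic (b = true ∧ a = false) := by
  unfold sb ic
  cases a <;> cases b <;> norm_num

theorem pf_smb (h1 : T_LWS) : T_SMB := by
  intro M _ _ p g hp0 hp1 hg
  have hpp : p * (1 - p) ≤ 1 / 4 := by nlinarith [sq_nonneg (p - 1 / 2)]
  have hpp0 : 0 ≤ p * (1 - p) := mul_nonneg hp0 (by linarith)
  set x : M → (M → Bool) → ℝ := fun m β => (if β m = true then 1 else 0) - p with hx
  have hxabs : ∀ m β, |x m β| ≤ 1 := by
    intro m β
    simp only [hx]
    split_ifs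
    · rw [abs_le]; constructor <;> linarith
    · rw [abs_le]; constructor <;> linarith
  have hsabs : ∀ b : Bool, |sb b| = 1 := by
    intro b
    unfold sb
    cases b <;> norm_num
  have hssq : ∀ b : Bool, sb b * sb b = 1 := by
    intro b
    unfold sb
    cases b <;> norm_num
  -- the main bound
  have key : ∀ m m' : M, ∑ β, lw p β * ((sb (g m β) * x m β) * (sb (g m' β) * x m' β)) ≤
      (if m = m' then 1 / 4 else 0) + 1 / 4 * ∑ β, lw p β * (sb (g m (Function.update β m' true)) -
        sb (g m (Function.update β m' false))) + ∑ β, lw p β * ic (Neg (g m) m' β) := by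
    intro m m'
    have hN : 0 ≤ ∑ β, lw p β * ic (Neg (g m) m' β) :=
      sum_nonneg fun β _ => mul_nonneg (lw_nn hp0 hp1 β) (ic_nonneg _)
    by_cases hm : m = m'
    · subst hm
      have hD : ∑ β, lw p β * (sb (g m (Function.update β m true)) -
          sb (g m (Function.update β m false))) = 0 := by
        refine sum_eq_zero fun β _ => ?_
        rw [hg, hg, sub_self, mul_zero]
      have hE : ∑ β, lw p β * ((sb (g m β) * x m β) * (sb (g m β) * x m β)) = p * (1 - p) := by
        have h2 := pair_lemma p m (fun _ => 1) (x m) (fun _ _ => rfl)
        have h3 : ∀ β : M → Bool, x m (Function.update β m true) - x m (Function.update β m false) = 1 := by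
          intro β
          simp [hx]
        simp only [h3, mul_one, h1 M p] at h2
        rw [← h2]
        refine sum_congr rfl fun β _ => ?_
        have : (sb (g m β) * x m β) * (sb (g m β) * x m β) = (sb (g m β) * sb (g m β)) * (x m β * x m β) := by
          ring
        rw [this, hssq, one_mul]
      rw [hE, hD, if_pos rfl]
      linarith
    · rw [if_neg hm]
      have hG : ∀ (β : M → Bool) (b : Bool), (fun β => sb (g m' β) * x m β) (Function.update β m' b) =
          (fun β => sb (g m' β) * x m β) β := by
        intro β b
        simp only [hx, hg, Function.update_of_ne hm]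
      have h2 := pair_lemma p m' (fun β => sb (g m' β) * x m β) (fun β => sb (g m β)) hG
      have h3 : ∑ β, lw p β * ((sb (g m β) * x m β) * (sb (g m' β) * x m' β)) =
          ∑ β, lw p β * (((if β m' = true then 1 else 0) - p) * (sb (g m' β) * x m β) * sb (g m β)) := by
        refine sum_congr rfl fun β _ => ?_
        simp only [hx]
        ring
      rw [h3, h2]
      have h4 : ∑ β, lw p β * (sb (g m' β) * x m β * (sb (g m (Function.update β m' true)) -
          sb (g m (Function.update β m' false)))) ≤ ∑ β, lw p β * ((sb (g m (Function.update β m' true)) -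
          sb (g m (Function.update β m' false))) + 4 * ic (Neg (g m) m' β)) := by
        refine sum_le_sum fun β _ => mul_le_mul_of_nonneg_left ?_ (lw_nn hp0 hp1 β)
        have h5 := abs_sb (g m (Function.update β m' true)) (g m (Function.update β m' false))
        have h6 : ic (Neg (g m) m' β) = ic (g m (Function.update β m' false) = true ∧
          g m (Function.update β m' true) = false) := rfl
        rw [h6, ← h5]
        refine (le_abs_self _).trans ?_
        rw [abs_mul, abs_mul, hsabs, one_mul]
        exact mul_le_of_le_one_left (abs_nonneg _) (hxabs m β)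
      have h7 : 0 ≤ ∑ β, lw p β * ((sb (g m (Function.update β m' true)) -
          sb (g m (Function.update β m' false))) + 4 * ic (Neg (g m) m' β)) := by
        refine sum_nonneg fun β _ => mul_nonneg (lw_nn hp0 hp1 β) ?_
        have h5 := abs_sb (g m (Function.update β m' true)) (g m (Function.update β m' false))
        have h6 : ic (Neg (g m) m' β) = ic (g m (Function.update β m' false) = true ∧
          g m (Function.update β m' true) = false) := rfl
        rw [h6, ← h5]
        exact abs_nonneg _
      have h8 : ∑ β, lw p β * ((sb (g m (Function.update β m' true)) -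
          sb (g m (Function.update β m' false))) + 4 * ic (Neg (g m) m' β)) =
          ∑ β, lw p β * (sb (g m (Function.update β m' true)) - sb (g m (Function.update β m' false))) +
          4 * ∑ β, lw p β * ic (Neg (g m) m' β) := by
        rw [mul_sum, ← sum_add_distrib]
        exact sum_congr rfl fun β _ => by ring
      have h9 := mul_le_mul_of_nonneg_left h4 hpp0
      have h10 := mul_le_mul_of_nonneg_right hpp h7
      rw [h8] at h10 h9
      linarith
  -- expand the square
  have hsq : ∑ β, lw p β * (∑ m, sb (g m β) * x m β) ^ 2 =
      ∑ m, ∑ m', ∑ β, lw p β * ((sb (g m β) * x m β) * (sb (g m' β) * x m' β)) := by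
    have h2 : ∀ β : M → Bool, lw p β * (∑ m, sb (g m β) * x m β) ^ 2 =
        ∑ m, ∑ m', lw p β * ((sb (g m β) * x m β) * (sb (g m' β) * x m' β)) := by
      intro β
      rw [sq, sum_mul_sum, mul_sum]
      exact sum_congr rfl fun m _ => mul_sum _ _ _
    rw [sum_congr rfl fun β _ => h2 β, sum_comm]
    refine sum_congr rfl fun m _ => ?_
    rw [sum_comm]
  have hfin : ∑ m, ∑ m', ∑ β, lw p β * ((sb (g m β) * x m β) * (sb (g m' β) * x m' β)) ≤
      ∑ m, ∑ m', ((if m = m' then 1 / 4 else 0) + 1 / 4 * ∑ β, lw p β *
        (sb (g m (Function.update β m' true)) - sb (g m (Function.update β m' false))) +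
        ∑ β, lw p β * ic (Neg (g m) m' β)) :=
    sum_le_sum fun m _ => sum_le_sum fun m' _ => key m m'
  have hcard : ∑ m : M, ∑ m' : M, (if m = m' then (1 / 4 : ℝ) else 0) = (Fintype.card M : ℝ) / 4 := by
    simp only [sum_ite_eq, mem_univ, if_true, sum_const, card_univ, nsmul_eq_mul]
    ring
  rw [hsq]
  refine hfin.trans (le_of_eq ?_)
  simp only [sum_add_distrib]
  rw [hcard, mul_sum]
  simp only [mul_sum]

end Pool.Agent.H51.NE.SMB
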